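import Mathlib

/-! Graphs without a 9-vertex set spanning exactly 18 edges: basic tools. -/

set_option autoImplicit false

namespace Q117.NE

open SimpleGraph Finset

open Classical in
/-- number of ordered adjacent pairs inside `S` (twice the number of edges) -/
noncomputable def ds {V : Type*} (G : SimpleGraph V) (S : Finset V) : ℕ :=
  ∑ u ∈ S, ∑ v ∈ S, if G.Adj u v then 1 else 0

/-- no 9-set spans exactly 18 edges -/
def NB {V : Type*} (G : SimpleGraph V) : Prop := ∀ S : Finset V, S.card = 9 → ds G S ≠ 36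

/-- existence of a suitable graph with `n` vertices and `e` edges -/
def Ex (n e : ℕ) : Prop :=
  ∃ (V : Type) (_ : Fintype V) (G : SimpleGraph V), Fintype.card V = n ∧ ds G univ = 2 * e ∧ NB G

lemma ds_congr {V W : Type*} (G : SimpleGraph V) (H : SimpleGraph W) (f : V ↪ W)
    (h : ∀ u v, H.Adj (f u) (f v) ↔ G.Adj u v) (S : Finset V) : ds H (S.map f) = ds G S := by
  classical
  unfold ds
  rw [sum_map]
  refine sum_congr rfl fun u _ => ?_
  rw [sum_map]
  refine sum_congr rfl fun v _ => ?_
  simp only [h]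

theorem Ex.fin {n e : ℕ} (h : Ex n e) : ∃ G : SimpleGraph (Fin n), ds G univ = 2 * e ∧ NB G := by
  obtain ⟨V, _, G, hc, he, hN⟩ := h
  let f : V ≃ Fin n := Fintype.equivFinOfCardEq hc
  refine ⟨G.comap f.symm, ?_, ?_⟩
  · have := ds_congr G (G.comap f.symm) f.toEmbedding
      (fun u v => by simp) univ
    rw [← he, ← this]
    congr 1
    ext x
    simp
  · intro S hS
    have := ds_congr G (G.comap f.symm) f.toEmbedding
      (fun u v => by simp) (S.map f.symm.toEmbedding)
    have h2 : (S.map f.symm.toEmbedding).map f.toEmbedding = S := by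
      ext x
      simp
    rw [h2] at this
    rw [this]
    exact hN _ (by rw [card_map, hS])

section
variable {V : Type*} (G : SimpleGraph V)

lemma ds_compl (S : Finset V) : ds Gᶜ S + ds G S = S.card * (S.card - 1) := by
  classical
  unfold ds
  rw [← sum_add_distrib]
  have h : ∑ _u ∈ S, (S.card - 1) = S.card * (S.card - 1) := by simp
  rw [← h]
  refine sum_congr rfl fun u hu => ?_
  rw [← sum_add_distrib, ← card_erase_of_mem hu, card_eq_sum_ones, ← sum_erase_add _ _ hu]
  have h0 : ((if Gᶜ.Adj u u then 1 else 0) + if G.Adj u u then 1 else 0) = 0 := by simp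
  refine (congrArg₂ (· + ·) (sum_congr rfl fun v hv => ?_) (by simp)).trans (add_zero _)
  have hne : u ≠ v := (ne_of_mem_erase hv).symm
  by_cases h : G.Adj u v
  · simp [h]
  · simp [h, hne]

lemma NB.compl {G : SimpleGraph V} (h : NB G) : NB Gᶜ := by
  intro S hS h36
  have := ds_compl G S
  rw [hS, h36] at this
  exact h S hS (by omega)

end

lemma choose_two_double (n : ℕ) : 2 * n.choose 2 = n * (n - 1) := by
  rw [Nat.choose_two_right]
  exact Nat.mul_div_cancel' (Nat.even_mul_pred_self n).two_dvd

theorem Ex.compl {n e e' : ℕ} (h : Ex n e) (h' : e + e' = n.choose 2) : Ex n e' := by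
  obtain ⟨V, hV, G, hc, he, hN⟩ := h
  refine ⟨V, hV, Gᶜ, hc, ?_, hN.compl⟩
  have h1 := ds_compl G univ
  have h2 := choose_two_double n
  rw [he, card_univ, hc] at h1
  omega

/-! ### edges -/

lemma ds_univ {V : Type*} [Fintype V] (G : SimpleGraph V) : ds G univ = 2 * G.edgeSet.ncard := by
  classical
  have h1 := G.sum_degrees_eq_twice_card_edges
  have h2 : ds G univ = ∑ v, G.degree v := by
    unfold ds
    refine sum_congr rfl fun u _ => ?_
    rw [← card_neighborFinset_eq_degree, neighborFinset_eq_filter, card_filter]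
  rw [h2, h1, Set.ncard_eq_toFinset_card']
  rfl

/-- number of edges of `G` inside `S` -/
noncomputable def edgesIn {V : Type*} (G : SimpleGraph V) (S : Finset V) : ℕ :=
  {e ∈ G.edgeSet | ∀ v ∈ e, v ∈ S}.ncard

lemma ds_eq {V : Type*} [Fintype V] (G : SimpleGraph V) (S : Finset V) :
    ds G S = 2 * edgesIn G S := by
  classical
  let G' : SimpleGraph V :=
    { Adj := fun u v => G.Adj u v ∧ u ∈ S ∧ v ∈ S
      symm := ⟨fun u v h => ⟨h.1.symm, h.2.2, h.2.1⟩⟩
      loopless := ⟨fun u h => G.irrefl h.1⟩ }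
  have h1 : ds G S = ds G' univ := by
    unfold ds
    rw [← sum_subset (subset_univ S)]
    · refine sum_congr rfl fun u hu => ?_
      rw [← sum_subset (subset_univ S)]
      · refine sum_congr rfl fun v hv => ?_
        simp [G', hu, hv]
      · intro v _ hv
        simp [G', hv]
    · intro u _ hu
      simp [G', hu]
  rw [h1, ds_univ]
  congr 2
  ext e
  induction e using Sym2.ind with
  | _ u v =>
    simp [G']

lemma exists_sub {V : Type*} [Fintype V] (G : SimpleGraph V) (M m : ℕ) (h : ds G univ = 2 * M)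
    (hm : m ≤ M) : ∃ H ≤ G, ds H univ = 2 * m := by
  classical
  rw [ds_univ] at h
  have hc : G.edgeFinset.card = M := by
    rw [Set.ncard_eq_toFinset_card'] at h
    have : G.edgeFinset.card = G.edgeSet.toFinset.card := rfl
    omega
  obtain ⟨T, hT, hTc⟩ := exists_subset_card_eq (s := G.edgeFinset) (n := m) (by omega)
  have hTG : (T : Set (Sym2 V)) ⊆ G.edgeSet := by
    intro e he
    have := hT (mem_coe.1 he)
    simpa using this
  refine ⟨fromEdgeSet (T : Set (Sym2 V)), ?_, ?_⟩
  · rw [← edgeSet_subset_edgeSet, edgeSet_fromEdgeSet]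
    exact Set.sdiff_subset.trans hTG
  · rw [ds_univ, edgeSet_fromEdgeSet]
    congr 1
    rw [← hTc, ← Set.ncard_coe_finset T]
    congr 1
    rw [sdiff_eq_left]
    rw [Set.disjoint_left]
    intro e he hd
    exact G.not_isDiag_of_mem_edgeSet (hTG he) (by simpa using hd)

lemma ds_mono {V : Type*} {G H : SimpleGraph V} (h : G ≤ H) (S : Finset V) : ds G S ≤ ds H S := by
  classical
  unfold ds
  refine sum_le_sum fun u _ => sum_le_sum fun v _ => ?_
  by_cases h1 : G.Adj u v
  · simp [h1, h h1]
  · simp [h1]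

lemma ds_mono_set {V : Type*} (G : SimpleGraph V) {S T : Finset V} (h : S ⊆ T) :
    ds G S ≤ ds G T := by
  classical
  unfold ds
  calc ∑ u ∈ S, ∑ v ∈ S, (if G.Adj u v then 1 else 0)
      ≤ ∑ u ∈ S, ∑ v ∈ T, (if G.Adj u v then 1 else 0) :=
        sum_le_sum fun u _ => sum_le_sum_of_subset h
    _ ≤ _ := sum_le_sum_of_subset h

end Q117.NE
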