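import Pool.Agent.Q117.NE.Basic

/-! The constructions. -/

set_option autoImplicit false

namespace Q117.NE

open SimpleGraph Finset

/-- triangle-free -/
def TF {V : Type*} (H : SimpleGraph V) : Prop := ∀ u v w, H.Adj u v → H.Adj v w → ¬ H.Adj u w

/-- good graphs -/
def GH {V : Type*} (H : SimpleGraph V) : Prop := TF H ∧ ∀ S : Finset V, S.card = 9 → ds H S ≤ 34

lemma GH.mono {V : Type*} {G H : SimpleGraph V} (h : G ≤ H) (hH : GH H) : GH G :=
  ⟨fun u v w h1 h2 h3 => hH.1 u v w (h h1) (h h2) (h h3),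
    fun S hS => (ds_mono h S).trans (hH.2 S hS)⟩

section
variable {V : Type*} (H : SimpleGraph V)

open Classical in
/-- degree inside `S` -/
noncomputable def dd (S : Finset V) (u : V) : ℕ := ∑ v ∈ S, if H.Adj u v then 1 else 0

lemma ds_dd (S : Finset V) : ds H S = ∑ u ∈ S, dd H S u := rfl

lemma cauchy (S : Finset V) : ds H S ^ 2 ≤ S.card * ∑ u ∈ S, dd H S u ^ 2 := by
  rw [ds_dd]
  exact sq_sum_le_card_mul_sum_sq

lemma mantel (hT : TF H) (S : Finset V) : 2 * ds H S ≤ S.card ^ 2 := by
  classical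
  have hadd : ∀ u ∈ S, ∀ v ∈ S, H.Adj u v → dd H S u + dd H S v ≤ S.card := by
    intro u _ v _ h
    unfold dd
    rw [← sum_add_distrib, card_eq_sum_ones]
    refine sum_le_sum fun w _ => ?_
    by_cases h1 : H.Adj u w
    · have h2 : ¬ H.Adj v w := fun h2 => hT u v w h h2 h1
      simp [h1, h2]
    · simp only [h1, if_false, zero_add]
      split_ifs <;> simp
  have h1 : ∑ u ∈ S, ∑ v ∈ S, (if H.Adj u v then 1 else 0) * (dd H S u + dd H S v) ≤
      ∑ u ∈ S, ∑ v ∈ S, (if H.Adj u v then 1 else 0) * S.card := by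
    refine sum_le_sum fun u hu => sum_le_sum fun v hv => ?_
    by_cases h : H.Adj u v
    · simpa [h] using hadd u hu v hv h
    · simp [h]
  have h2 : ∑ u ∈ S, ∑ v ∈ S, (if H.Adj u v then 1 else 0) * S.card = ds H S * S.card := by
    unfold ds
    rw [sum_mul]
    refine sum_congr rfl fun u _ => ?_
    rw [sum_mul]
  have h3 : ∑ u ∈ S, ∑ v ∈ S, (if H.Adj u v then 1 else 0) * (dd H S u + dd H S v) =
      2 * ∑ u ∈ S, dd H S u ^ 2 := by
    have e1 : ∑ u ∈ S, ∑ v ∈ S, (if H.Adj u v then 1 else 0) * dd H S u =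
        ∑ u ∈ S, dd H S u ^ 2 := by
      refine sum_congr rfl fun u _ => ?_
      rw [← sum_mul, sq]
      rfl
    have e2 : ∑ u ∈ S, ∑ v ∈ S, (if H.Adj u v then 1 else 0) * dd H S v =
        ∑ u ∈ S, dd H S u ^ 2 := by
      rw [sum_comm, ← e1]
      refine sum_congr rfl fun u _ => sum_congr rfl fun v _ => ?_
      rw [H.adj_comm]
    simp only [mul_add, sum_add_distrib]
    rw [e1, e2]
    ring
  rw [h3, h2] at h1
  have h4 := cauchy H S
  by_contra hc
  push Not at hc
  have h5 : 2 * ds H S ^ 2 ≤ S.card * (ds H S * S.card) := by nlinarith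
  have h6 : 0 < ds H S := by
    rcases Nat.eq_zero_or_pos (ds H S) with h | h
    · rw [h] at hc; omega
    · exact h
  nlinarith

lemma codeg_bound [DecidableRel H.Adj] (hT : TF H)
    (h2 : ∀ u w, u ≠ w → ∀ S : Finset V, (S.filter fun v => H.Adj u v ∧ H.Adj v w).card ≤ 2)
    (S : Finset V) (hS : S.card = 9) : ds H S ≤ 34 := by
  classical
  have h3 : ∑ v ∈ S, dd H S v ^ 2 =
      ∑ u ∈ S, ∑ w ∈ S, (S.filter fun v => H.Adj u v ∧ H.Adj v w).card := by
    have e : ∀ v ∈ S, dd H S v ^ 2 =
        ∑ u ∈ S, ∑ w ∈ S, if H.Adj u v ∧ H.Adj v w then 1 else 0 := by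
      intro v _
      rw [sq]
      unfold dd
      rw [sum_mul_sum]
      refine sum_congr rfl fun u _ => sum_congr rfl fun w _ => ?_
      by_cases a : H.Adj u v
      · have a' := a.symm
        by_cases b : H.Adj v w <;> simp [a, a', b]
      · have a' : ¬ H.Adj v u := fun h => a h.symm
        simp [a, a']
    rw [sum_congr rfl e, sum_comm]
    refine sum_congr rfl fun u _ => ?_
    rw [sum_comm]
    refine sum_congr rfl fun w _ => ?_
    rw [card_filter]
  have h4 : ∑ u ∈ S, ∑ w ∈ S, (S.filter fun v => H.Adj u v ∧ H.Adj v w).card ≤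
      ∑ u ∈ S, ∑ w ∈ S, ((if u = w then dd H S u else 0) +
        2 * (if Hᶜ.Adj u w then 1 else 0)) := by
    refine sum_le_sum fun u _ => sum_le_sum fun w _ => ?_
    by_cases huw : u = w
    · subst huw
      rw [card_filter]
      unfold dd
      simp only [if_true, SimpleGraph.irrefl, if_false, mul_zero, add_zero]
      refine sum_le_sum fun v _ => ?_
      by_cases a : H.Adj u v
      · simp only [a, true_and, if_true]
        split_ifs <;> simp
      · simp [a]
    · by_cases a : H.Adj u w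
      · have : (S.filter fun v => H.Adj u v ∧ H.Adj v w) = ∅ := by
          rw [filter_eq_empty_iff]
          rintro v _ ⟨h1, h3⟩
          exact hT u v w h1 h3 a
        rw [this]
        simp
      · have hc : Hᶜ.Adj u w := ⟨huw, a⟩
        simp only [huw, hc, if_true, if_false]
        have := h2 u w huw S
        omega
  have h5 : ∑ u ∈ S, ∑ w ∈ S, ((if u = w then dd H S u else 0) +
        2 * (if Hᶜ.Adj u w then 1 else 0)) = ds H S + 2 * ds Hᶜ S := by
    simp only [sum_add_distrib, ← mul_sum]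
    congr 1
    · rw [ds_dd]
      refine sum_congr rfl fun u hu => ?_
      rw [sum_ite_eq, if_pos hu]
    · unfold ds
      congr 1
      refine sum_congr rfl fun u _ => sum_congr rfl fun v _ => ?_
      congr
  rw [h5] at h4
  have h6 : ds Hᶜ S + ds H S = 72 := by
    rw [ds_compl, hS]
  have h8 := cauchy H S
  rw [hS] at h8
  by_contra hc
  push Not at hc
  nlinarith

end

end Q117.NE
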