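import Pool.Agent.Q117.NE.Per

/-! Small graphs and the covering argument. -/

set_option autoImplicit false

namespace Q117.NE

open SimpleGraph Finset

/-! ### complete bipartite graphs -/

def BG (b : ℕ) : SimpleGraph (Fin b) where
  Adj x y := (x : ℕ) % 2 ≠ (y : ℕ) % 2
  symm := ⟨fun _ _ h => h.symm⟩
  loopless := ⟨fun _ h => h rfl⟩

lemma exC (b : ℕ) (hb : b ≤ 8) : ∃ H : SimpleGraph (Fin b), GH H ∧ ds H univ = 2 * (b ^ 2 / 4) := by
  classical
  refine ⟨BG b, ⟨?_, ?_⟩, ?_⟩
  · intro u v w h1 h2 h3
    simp only [BG] at h1 h2 h3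
    omega
  · intro S hS
    have := card_le_univ S
    rw [Fintype.card_fin] at this
    omega
  · let g : ℕ → ℕ → ℕ := fun x y => if x % 2 ≠ y % 2 then 1 else 0
    have h1 : ds (BG b) univ = ∑ x ∈ range b, ∑ y ∈ range b, g x y := by
      unfold ds
      rw [← Fin.sum_univ_eq_sum_range (fun x => ∑ y ∈ range b, g x y) b]
      refine sum_congr rfl fun x _ => ?_
      rw [← Fin.sum_univ_eq_sum_range (fun y => g x y) b]
      refine sum_congr rfl fun y _ => ?_
      simp only [g]
      congr
    rw [h1]
    interval_cases b <;> decide +kernel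

/-! ### the graph with 12 vertices and 33 edges -/

def rows : List ℕ := [2434, 2345, 2448, 2850, 2500, 2314, 3344, 2325, 3839, 3336, 2880, 2047]

def adjN (x y : ℕ) : Bool := (rows.getD x 0).testBit y

lemma adjN_sym : ∀ x < 12, ∀ y < 12, adjN x y = adjN y x := by decide +kernel

lemma adjN_irr : ∀ x < 12, adjN x x = false := by decide +kernel

def RG : SimpleGraph (Fin 12) where
  Adj x y := adjN x y = true
  symm := ⟨fun x y h => by rw [adjN_sym _ y.2 _ x.2]; exact h⟩
  loopless := ⟨fun x h => by
    rw [adjN_irr _ x.2] at h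
    exact absurd h (by simp)⟩

/-- the vertices other than `a`, `b`, `c` -/
def rest (a b c : ℕ) : List ℕ := (List.range 12).filter fun x => x != a && x != b && x != c

/-- twice the number of edges inside a list of vertices -/
def dsL (L : List ℕ) : ℕ := (L.map fun u => (L.filter fun v => adjN u v).length).sum

lemma RG_check : ∀ a < 12, ∀ b < a, ∀ c < b, dsL (rest a b c) ≠ 36 := by
  decide +kernel

lemma ds_RG (S : Finset (Fin 12)) (a b c : Fin 12) (h : Sᶜ = {a, b, c}) :
    ds RG S = dsL (rest a b c) := by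
  classical
  have hm : S.map Fin.valEmbedding = (rest a b c).toFinset := by
    ext u
    simp only [mem_map, Fin.valEmbedding_apply, List.mem_toFinset, rest, List.mem_filter,
      List.mem_range, bne_iff_ne, Bool.and_eq_true, ne_eq]
    constructor
    · rintro ⟨x, hx, rfl⟩
      have hx' : x ∉ Sᶜ := by simpa using hx
      rw [h] at hx'
      simp only [mem_insert, mem_singleton, not_or, Fin.ext_iff] at hx'
      exact ⟨x.2, ⟨hx'.1, hx'.2.1⟩, hx'.2.2⟩
    · rintro ⟨h1, ⟨h2, h3⟩, h4⟩
      refine ⟨⟨u, h1⟩, ?_, rfl⟩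
      have : (⟨u, h1⟩ : Fin 12) ∉ Sᶜ := by
        rw [h]
        simp only [mem_insert, mem_singleton, not_or, Fin.ext_iff]
        exact ⟨h2, h3, h4⟩
      simpa using this
  have hnd : (rest a b c).Nodup := List.nodup_range.filter _
  have key : ∀ f : ℕ → ℕ, ∑ u ∈ S, f u = ((rest a b c).map f).sum := by
    intro f
    have h1 : ∑ u ∈ S, f u = ∑ u ∈ S.map Fin.valEmbedding, f u := by
      rw [sum_map]
      rfl
    rw [h1, hm, List.sum_toFinset f hnd]
  unfold ds dsL
  rw [← key]
  refine sum_congr rfl fun u _ => ?_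
  have h2 : ∑ v ∈ S, (if RG.Adj u v then 1 else 0) =
      ∑ v ∈ S, (fun v : ℕ => if adjN u v = true then 1 else 0) v := by
    refine sum_congr rfl fun v _ => ?_
    simp only [RG]
    congr
  rw [h2, key (fun v : ℕ => if adjN u v = true then 1 else 0)]
  generalize rest a b c = L
  clear key hm hnd h2 h
  induction L with
  | nil => rfl
  | cons x L ih =>
    rw [List.map_cons, List.sum_cons, ih, List.filter_cons]
    split_ifs
    · rw [List.length_cons]; ring
    · ring

lemma RG_tot : ∑ u ∈ range 12, ∑ v ∈ range 12, (if adjN u v = true then 1 else 0) = 66 := by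
  decide +kernel

lemma ex12 : Ex 12 33 := by
  classical
  refine ⟨Fin 12, inferInstance, RG, by simp, ?_, ?_⟩
  · rw [show 2 * 33 = 66 by norm_num, ← RG_tot]
    unfold ds
    rw [← Fin.sum_univ_eq_sum_range (fun u => ∑ v ∈ range 12, if adjN u v = true then 1 else 0) 12]
    refine sum_congr rfl fun x _ => ?_
    rw [← Fin.sum_univ_eq_sum_range (fun v => if adjN x v = true then 1 else 0) 12]
    refine sum_congr rfl fun y _ => ?_
    simp only [RG]
    congr
  · intro S hS h36
    have hc : Sᶜ.card = 3 := by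
      rw [card_compl, hS, Fintype.card_fin]
    obtain ⟨a, b, c, hab, hac, hbc, h⟩ := card_eq_three.1 hc
    have key : ∀ a b c : Fin 12, b < a → c < b → Sᶜ = {a, b, c} → False := by
      intro a b c h1 h2 h3
      exact RG_check a a.2 b h1 c h2 ((ds_RG S a b c h3).symm.trans h36)
    rcases lt_or_gt_of_ne hab with h1 | h1 <;> rcases lt_or_gt_of_ne hac with h2 | h2 <;>
      rcases lt_or_gt_of_ne hbc with h3 | h3
    · exact key c b a h3 h1 (by rw [h]; ext x; simp; tauto)
    · exact key b c a h3 h2 (by rw [h]; ext x; simp; tauto)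
    · exact absurd (h1.trans h3) h2.asymm
    · exact key b a c h1 h2 (by rw [h]; ext x; simp; tauto)
    · exact key c a b h2 h1 (by rw [h]; ext x; simp; tauto)
    · exact absurd (h3.trans h1) h2.asymm
    · exact key a c b h2 h3 (by rw [h]; ext x; simp; tauto)
    · exact key a b c h1 h3 (by rw [h])

end Q117.NE
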