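import Pool.Agent.Q117.NE.Cover

/-! The covering argument. -/

set_option autoImplicit false

namespace Q117.NE

open SimpleGraph Finset

def MM (b : ℕ) : ℕ := if b ≤ 8 then b ^ 2 / 4 else max (mA b) (mB b)

lemma exMM (b : ℕ) : ∃ H : SimpleGraph (Fin b), GH H ∧ ds H univ = 2 * MM b := by
  unfold MM
  split_ifs with h
  · exact exC b h
  · rcases le_total (mA b) (mB b) with h1 | h1
    · rw [max_eq_right h1]; exact exB b
    · rw [max_eq_left h1]; exact exA b

lemma covU {n e a m : ℕ} (ha : a ≤ n) (he : e = a.choose 2 + m) (hm : m ≤ MM (n - a)) :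
    Ex n e := by
  have := exU a (n - a) (MM (n - a)) m (exMM _) hm
  rwa [Nat.add_sub_cancel' ha, ← he] at this

/-- `a (a - 1) / 2` -/
def c2 (a : ℕ) : ℕ := a * (a - 1) / 2

lemma c2_eq (a : ℕ) : c2 a = a.choose 2 := (Nat.choose_two_right a).symm

def altU (n f : ℕ) : Bool :=
  (List.range (n + 1)).any fun a => decide (c2 a ≤ f) && decide (f ≤ c2 a + MM (n - a))

def altJ (n f : ℕ) : Bool :=
  (List.range (n + 1)).any fun a => decide (c2 a + a * (n - a) ≤ f) &&
    decide (f ≤ c2 a + a * (n - a) + 2) && decide (f ≤ c2 a + a * (n - a) + c2 (n - a))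

lemma altU_sound {n f : ℕ} (h : altU n f = true) : Ex n f := by
  unfold altU at h
  rw [List.any_eq_true] at h
  obtain ⟨a, ha, h⟩ := h
  rw [List.mem_range] at ha
  simp only [Bool.and_eq_true, decide_eq_true_eq] at h
  rw [c2_eq] at h
  exact covU (a := a) (m := f - a.choose 2) (by omega) (by omega) (by omega)

lemma altJ_sound {n f : ℕ} (h : altJ n f = true) : Ex n f := by
  unfold altJ at h
  rw [List.any_eq_true] at h
  obtain ⟨a, ha, h⟩ := h
  rw [List.mem_range] at ha
  simp only [Bool.and_eq_true, decide_eq_true_eq] at h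
  rw [c2_eq, c2_eq] at h
  have := exJ a (n - a) (f - (a.choose 2 + a * (n - a))) (by omega) (by omega)
  rw [Nat.add_sub_cancel' (by omega : a ≤ n), Nat.add_sub_cancel' (by omega)] at this
  exact this

def alt (n e : ℕ) : Bool :=
  altU n e || altU n (c2 n - e) || altJ n e || altJ n (c2 n - e) || (n == 12 && e == 33)

lemma alt_sound {n e : ℕ} (he : e ≤ n.choose 2) (h : alt n e = true) : Ex n e := by
  unfold alt at h
  simp only [Bool.or_eq_true, Bool.and_eq_true, beq_iff_eq] at h
  rw [c2_eq] at h
  rcases h with (((h | h) | h) | h) | ⟨rfl, rfl⟩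
  · exact altU_sound h
  · exact (altU_sound h).compl (by omega)
  · exact altJ_sound h
  · exact (altJ_sound h).compl (by omega)
  · exact ex12

def chk (n a : ℕ) : Bool :=
  decide (a - 1 ≤ MM (n - a)) ||
    (List.range a).all fun m => decide (c2 n < 2 * (c2 a + m)) || decide (m ≤ MM (n - a)) ||
      alt n (c2 a + m)

lemma chk_all : ∀ n < 100, 10 ≤ n → ∀ a < n + 1, chk n a = true := by
  decide +kernel

lemma exists_a (e : ℕ) : ∃ a, a.choose 2 ≤ e ∧ e < a.choose 2 + a := by
  have hex : ∃ a, e < (a + 1).choose 2 := by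
    refine ⟨e + 1, ?_⟩
    rw [Nat.choose_succ_succ, Nat.choose_one_right]
    omega
  classical
  have h1 := Nat.find_spec hex
  set a := Nat.find hex with ha
  refine ⟨a, ?_, ?_⟩
  · rcases Nat.eq_zero_or_pos a with h | h
    · rw [h]; simp
    · by_contra hc
      push Not at hc
      have := Nat.find_min hex (m := a - 1) (by omega)
      apply this
      rwa [Nat.sub_add_cancel h]
  · have h3 : (a + 1).choose 2 = a + a.choose 2 := by
      rw [Nat.choose_succ_succ' a 1, Nat.choose_one_right]
    omega

lemma tB_check : ∀ r < 32, 3 * r ≤ tB.getD r 0 + 17 := by decide +kernel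

lemma mB_lower (b : ℕ) : 3 * b ≤ mB b + 17 := by
  have h1 := tB_check (b % 32) (Nat.mod_lt _ (by norm_num))
  unfold mB
  omega

theorem main_half (n e : ℕ) (hn : 10 ≤ n) (he : 2 * e ≤ n.choose 2) : Ex n e := by
  obtain ⟨a, h1, h2⟩ := exists_a e
  have hT := choose_two_double n
  have hA := choose_two_double a
  obtain ⟨k, rfl⟩ : ∃ k, n = k + 1 := ⟨n - 1, by omega⟩
  rw [Nat.add_sub_cancel] at hT
  rcases Nat.eq_zero_or_pos a with h0 | h0
  · subst h0
    simp at h1 h2
  obtain ⟨b, rfl⟩ : ∃ b, a = b + 1 := ⟨a - 1, by omega⟩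
  rw [Nat.add_sub_cancel] at hA
  have han : b + 1 ≤ k + 1 := by
    by_contra hc
    push Not at hc
    have : (k + 1) * k ≤ (b + 1) * b := Nat.mul_le_mul (by omega) (by omega)
    have h3 : 0 < (k + 1) * k := Nat.mul_pos (by omega) (by omega)
    omega
  rcases Nat.lt_or_ge (k + 1) 100 with hlt | hge
  · have hc := chk_all (k + 1) hlt hn (b + 1) (by omega)
    unfold chk at hc
    rw [Bool.or_eq_true, decide_eq_true_eq, List.all_eq_true] at hc
    rcases hc with hc | hc
    · exact covU (a := b + 1) (m := e - (b + 1).choose 2) han (by omega) (by omega)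
    · have := hc (e - (b + 1).choose 2) (by rw [List.mem_range]; omega)
      rw [Bool.or_eq_true, Bool.or_eq_true, decide_eq_true_eq, decide_eq_true_eq, c2_eq, c2_eq,
        Nat.add_sub_cancel' h1] at this
      rcases this with (h | h) | h
      · omega
      · exact covU (a := b + 1) (m := e - (b + 1).choose 2) han (by omega) h
      · exact alt_sound (by omega) h
  · have hkey : b + 17 ≤ 3 * (k - b) := by
      by_contra hc
      push Not at hc
      have h4 : 3 * k ≤ 4 * b + 16 := by omega
      have h5 : 2 * ((b + 1) * b) ≤ (k + 1) * k := by omega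
      nlinarith
    have hMM : 3 * (k - b) ≤ MM (k + 1 - (b + 1)) + 17 := by
      have e1 : k + 1 - (b + 1) = k - b := by omega
      rw [e1]
      unfold MM
      rw [if_neg (by omega)]
      have := mB_lower (k - b)
      have := le_max_right (mA (k - b)) (mB (k - b))
      omega
    exact covU (a := b + 1) (m := e - (b + 1).choose 2) han (by omega) (by omega)

theorem main (n e : ℕ) (hn : 10 ≤ n) (he : e ≤ n.choose 2) : Ex n e := by
  rcases le_total (2 * e) (n.choose 2) with h | h
  · exact main_half n e hn h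
  · exact (main_half n (n.choose 2 - e) hn (by omega)).compl (by omega)

end Q117.NE
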