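import Pool.Agent.Q117.NE.Sum

/-! Periodic graphs. -/

set_option autoImplicit false

namespace Q117.NE

open SimpleGraph Finset

/-- the requirements on one block -/
structure Blk (p : ℕ) (cl : ℕ → ℕ → Bool) : Prop where
  pos : 0 < p
  sym : ∀ r < p, ∀ s < p, cl r s = cl s r
  irr : ∀ r < p, cl r r = false
  tf : ∀ r < p, ∀ s < p, cl r s = true → ∀ t < p, cl s t = true → cl r t = false
  cod : ∀ r < p, ∀ t < p, r ≠ t →
    ((List.range p).filter fun s => cl r s && cl s t).length ≤ 2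

/-- number of smaller neighbours in a block -/
def cc (cl : ℕ → ℕ → Bool) (r : ℕ) : ℕ := ∑ t ∈ range r, if cl r t = true then 1 else 0

def FF (p : ℕ) (cl : ℕ → ℕ → Bool) (b : ℕ) : ℕ := ∑ x ∈ range b, cc cl (x % p)

lemma FF_add (p : ℕ) (cl : ℕ → ℕ → Bool) (b : ℕ) : FF p cl (p + b) = FF p cl p + FF p cl b := by
  unfold FF
  rw [sum_range_add]
  congr 1
  refine sum_congr rfl fun x _ => ?_
  rw [Nat.add_mod_left]

lemma FF_mul (p : ℕ) (cl : ℕ → ℕ → Bool) (q r : ℕ) :
    FF p cl (p * q + r) = q * FF p cl p + FF p cl r := by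
  induction q with
  | zero => simp
  | succ q ih =>
    rw [show p * (q + 1) + r = p + (p * q + r) by ring, FF_add, ih]
    ring

lemma FF_divmod (p : ℕ) (cl : ℕ → ℕ → Bool) (b : ℕ) :
    FF p cl b = (b / p) * FF p cl p + FF p cl (b % p) := by
  rw [← FF_mul, Nat.div_add_mod]

section
variable {p : ℕ} {cl : ℕ → ℕ → Bool} (hB : Blk p cl) (b : ℕ)
include hB

/-- the first `b` vertices of the periodic graph -/
def PG (hB : Blk p cl) (b : ℕ) : SimpleGraph (Fin b) where
  Adj x y := (x : ℕ) / p = (y : ℕ) / p ∧ cl (x % p) (y % p) = true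
  symm := ⟨fun x y h => ⟨h.1.symm, by
    rw [hB.sym _ (Nat.mod_lt _ hB.pos) _ (Nat.mod_lt _ hB.pos)]
    exact h.2⟩⟩
  loopless := ⟨fun x h => by
    have := hB.irr (x % p) (Nat.mod_lt _ hB.pos)
    rw [this] at h
    exact absurd h.2 (by simp)⟩

lemma PG_TF : TF (PG hB b) := by
  intro u v w h1 h2 h3
  have := hB.tf _ (Nat.mod_lt (u : ℕ) hB.pos) _ (Nat.mod_lt (v : ℕ) hB.pos) h1.2 _
    (Nat.mod_lt (w : ℕ) hB.pos) h2.2
  rw [h3.2] at this
  exact absurd this (by simp)

lemma PG_GH : GH (PG hB b) := by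
  classical
  refine ⟨PG_TF hB b, fun S hS => codeg_bound _ (PG_TF hB b) ?_ S hS⟩
  intro u w huw S
  by_cases hne : (S.filter fun v => (PG hB b).Adj u v ∧ (PG hB b).Adj v w) = ∅
  · rw [hne]; simp
  obtain ⟨v0, hv0⟩ := Finset.nonempty_iff_ne_empty.2 hne
  rw [mem_filter] at hv0
  have hdiv : (u : ℕ) / p = (w : ℕ) / p := hv0.2.1.1.trans hv0.2.2.1
  have hmod : (u : ℕ) % p ≠ (w : ℕ) % p := by
    intro h
    apply huw
    apply Fin.ext
    rw [← Nat.div_add_mod (u : ℕ) p, ← Nat.div_add_mod (w : ℕ) p, hdiv, h]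
  have hcod := hB.cod _ (Nat.mod_lt (u : ℕ) hB.pos) _ (Nat.mod_lt (w : ℕ) hB.pos) hmod
  refine le_trans ?_ hcod
  have hnd : ((List.range p).filter fun s => cl (u % p) s && cl s (w % p)).Nodup :=
    (List.nodup_range).filter _
  rw [← List.toFinset_card_of_nodup hnd]
  refine card_le_card_of_injOn (fun v => (v : ℕ) % p) ?_ ?_
  · intro v hv
    rw [mem_coe, mem_filter] at hv
    simp only [List.coe_toFinset, List.mem_filter, List.mem_range, Set.mem_setOf_eq,
      Bool.and_eq_true]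
    exact ⟨Nat.mod_lt _ hB.pos, hv.2.1.2, hv.2.2.2⟩
  · intro v hv v' hv' h
    rw [mem_coe, mem_filter] at hv hv'
    apply Fin.ext
    simp only at h
    rw [← Nat.div_add_mod (v : ℕ) p, ← Nat.div_add_mod (v' : ℕ) p, ← hv.2.1.1, ← hv'.2.1.1, h]

lemma sum_sym (g : ℕ → ℕ → ℕ) (h0 : ∀ x, g x x = 0) (hs : ∀ x y, g x y = g y x) (b : ℕ) :
    ∑ x ∈ range b, ∑ y ∈ range b, g x y = 2 * ∑ x ∈ range b, ∑ y ∈ range x, g x y := by
  induction b with
  | zero => simp
  | succ b ih =>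
    simp only [sum_range_succ, sum_add_distrib]
    rw [ih, h0]
    have : ∑ x ∈ range b, g x b = ∑ x ∈ range b, g b x := sum_congr rfl fun x _ => hs x b
    rw [this]
    ring

lemma PG_ds : ds (PG hB b) univ = 2 * FF p cl b := by
  classical
  let g : ℕ → ℕ → ℕ := fun x y => if x / p = y / p ∧ cl (x % p) (y % p) = true then 1 else 0
  have h1 : ds (PG hB b) univ = ∑ x ∈ range b, ∑ y ∈ range b, g x y := by
    unfold ds
    rw [← Fin.sum_univ_eq_sum_range (fun x => ∑ y ∈ range b, g x y) b]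
    refine sum_congr rfl fun x _ => ?_
    rw [← Fin.sum_univ_eq_sum_range (fun y => g x y) b]
    refine sum_congr rfl fun y _ => ?_
    simp only [g]
    congr
  rw [h1, sum_sym hB g ?_ ?_ b]
  · unfold FF
    congr 1
    refine sum_congr rfl fun x _ => ?_
    have hx : x = p * (x / p) + x % p := (Nat.div_add_mod x p).symm
    conv_lhs => rw [hx, sum_range_add]
    have hz : ∑ y ∈ range (p * (x / p)), g (p * (x / p) + x % p) y = 0 := by
      refine sum_eq_zero fun y hy => ?_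
      rw [mem_range] at hy
      have h2 : y / p < x / p := Nat.div_lt_of_lt_mul hy
      rw [← hx]
      simp only [g]
      rw [if_neg]
      rintro ⟨h, -⟩
      omega
    rw [hz, zero_add]
    unfold cc
    refine sum_congr rfl fun t ht => ?_
    rw [mem_range] at ht
    have htp : t < p := ht.trans (Nat.mod_lt _ hB.pos)
    simp only [g]
    rw [← hx]
    have e1 : (p * (x / p) + t) / p = x / p := by
      rw [Nat.mul_add_div hB.pos, Nat.div_eq_of_lt htp, add_zero]
    have e2 : (p * (x / p) + t) % p = t := by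
      rw [Nat.mul_add_mod, Nat.mod_eq_of_lt htp]
    rw [e1, e2]
    simp
  · intro x
    simp [g, hB.irr _ (Nat.mod_lt x hB.pos)]
  · intro x y
    simp only [g]
    rw [hB.sym _ (Nat.mod_lt x hB.pos) _ (Nat.mod_lt y hB.pos)]
    congr 1
    rw [eq_comm (a := x / p)]

end

/-! ### the two blocks -/

def clA (r s : ℕ) : Bool := [1, 2, 4, 8, 15].contains (r ^^^ s)

def clB (r s : ℕ) : Bool :=
  (r % 2 != s % 2) && [0, 1, 2, 4, 8, 15].contains ((r / 2) ^^^ (s / 2))

lemma blkA : Blk 16 clA where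
  pos := by norm_num
  sym := by decide +kernel
  irr := by decide +kernel
  tf := by decide +kernel
  cod := by decide +kernel

lemma blkB : Blk 32 clB where
  pos := by norm_num
  sym := by decide +kernel
  irr := by decide +kernel
  tf := by decide +kernel
  cod := by decide +kernel

def tA : List ℕ := [0, 0, 1, 2, 4, 5, 7, 9, 12, 14, 17, 20, 24, 27, 31, 35]
def tB : List ℕ := [0, 0, 1, 2, 4, 5, 7, 9, 12, 13, 15, 17, 20, 22, 25, 28, 32, 34, 37, 40, 44, 47,
  51, 55, 60, 63, 67, 71, 76, 80, 85, 90]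

lemma FFA : ∀ r < 16, FF 16 clA r = tA.getD r 0 := by decide +kernel
lemma FFA' : FF 16 clA 16 = 40 := by decide +kernel
lemma FFB : ∀ r < 32, FF 32 clB r = tB.getD r 0 := by decide +kernel
lemma FFB' : FF 32 clB 32 = 96 := by decide +kernel

def mA (b : ℕ) : ℕ := (b / 16) * 40 + tA.getD (b % 16) 0
def mB (b : ℕ) : ℕ := (b / 32) * 96 + tB.getD (b % 32) 0

lemma exA (b : ℕ) : ∃ H : SimpleGraph (Fin b), GH H ∧ ds H univ = 2 * mA b :=
  ⟨PG blkA b, PG_GH blkA b, by
    rw [PG_ds, FF_divmod, FFA', FFA _ (Nat.mod_lt _ (by norm_num))]; rfl⟩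

lemma exB (b : ℕ) : ∃ H : SimpleGraph (Fin b), GH H ∧ ds H univ = 2 * mB b :=
  ⟨PG blkB b, PG_GH blkB b, by
    rw [PG_ds, FF_divmod, FFB', FFB _ (Nat.mod_lt _ (by norm_num))]; rfl⟩

end Q117.NE
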