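import Pool.Agent.Q117.NE.Build

/-! Disjoint unions / joins with a clique. -/

set_option autoImplicit false

namespace Q117.NE

open SimpleGraph Finset

/-- disjoint union (`j` false) or join (`j` true) of a clique on `V` and `H` -/
def ug (V : Type) {W : Type} (H : SimpleGraph W) (j : Prop) : SimpleGraph (V ⊕ W) where
  Adj a b := match a, b with
    | .inl u, .inl v => u ≠ v
    | .inr u, .inr v => H.Adj u v
    | .inl _, .inr _ => j
    | .inr _, .inl _ => j
  symm := ⟨by
    rintro (u | u) (v | v) h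
    · exact Ne.symm h
    · exact h
    · exact h
    · exact H.adj_symm h⟩
  loopless := ⟨by
    rintro (u | u) h
    · exact h rfl
    · exact H.irrefl h⟩

section
variable {V W : Type} (H : SimpleGraph W)

lemma ds_ug (j : Prop) (S : Finset (V ⊕ W)) (t : ℕ) (ht : (j → t = 1) ∧ (¬ j → t = 0)) :
    ds (ug V H j) S = S.toLeft.card * (S.toLeft.card - 1) + ds H S.toRight +
      2 * (t * (S.toLeft.card * S.toRight.card)) := by
  classical
  have hj : (if j then 1 else 0) = t := by
    by_cases h : j
    · simp [h, ht.1 h]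
    · simp [h, ht.2 h]
  have hll : ∀ u v : V, (ug V H j).Adj (.inl u) (.inl v) ↔ u ≠ v := fun _ _ => Iff.rfl
  have hrr : ∀ u v : W, (ug V H j).Adj (.inr u) (.inr v) ↔ H.Adj u v := fun _ _ => Iff.rfl
  have hlr : ∀ (u : V) (v : W), (ug V H j).Adj (.inl u) (.inr v) ↔ j := fun _ _ => Iff.rfl
  have hrl : ∀ (u : W) (v : V), (ug V H j).Adj (.inr u) (.inl v) ↔ j := fun _ _ => Iff.rfl
  conv_lhs => rw [← toLeft_disjSum_toRight (u := S)]
  unfold ds
  rw [sum_disjSum]
  simp only [sum_disjSum, hll, hrr, hlr, hrl, sum_add_distrib, sum_const, smul_eq_mul, hj]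
  have h1 : ∑ u ∈ S.toLeft, ∑ v ∈ S.toLeft, (if u ≠ v then 1 else 0) =
      S.toLeft.card * (S.toLeft.card - 1) := by
    have := ds_compl (⊤ : SimpleGraph V) S.toLeft
    have h2 : ds (⊤ : SimpleGraph V)ᶜ S.toLeft = 0 := by
      unfold ds
      simp
    rw [h2, zero_add] at this
    rw [← this]
    unfold ds
    simp
  rw [h1]
  ring

theorem NB_U (hH : GH H) : NB (ug V H False) := by
  intro S hS h36
  rw [ds_ug H False S 0 (by simp)] at h36
  have hc := card_toLeft_add_card_toRight (u := S)
  rw [hS] at hc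
  have hm := mantel H hH.1 S.toRight
  have h9 := hH.2 S.toRight
  generalize S.toLeft.card = i at *
  generalize hj : S.toRight.card = j at *
  have hi : i ≤ 9 := by omega
  obtain rfl : j = 9 - i := by omega
  generalize ds H S.toRight = d at *
  clear hc hS hj
  interval_cases i <;> simp at h36 hm h9 <;> omega

theorem NB_J [Fintype W] (hH : ds H univ ≤ 4) : NB (ug V H True) := by
  intro S hS h36
  rw [ds_ug H True S 1 (by simp)] at h36
  have hc := card_toLeft_add_card_toRight (u := S)
  rw [hS] at hc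
  have hm := ds_mono_set H (subset_univ S.toRight)
  generalize S.toLeft.card = i at *
  generalize hj : S.toRight.card = j at *
  have hi : i ≤ 9 := by omega
  obtain rfl : j = 9 - i := by omega
  interval_cases i <;> omega

end

theorem exU (a b M m : ℕ) (h : ∃ H : SimpleGraph (Fin b), GH H ∧ ds H univ = 2 * M)
    (hm : m ≤ M) : Ex (a + b) (a.choose 2 + m) := by
  obtain ⟨H, hH, hM⟩ := h
  obtain ⟨H', hle, hm'⟩ := exists_sub H M m hM hm
  refine ⟨Fin a ⊕ Fin b, inferInstance, ug (Fin a) H' False, by simp, ?_,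
    NB_U H' (GH.mono hle hH)⟩
  rw [ds_ug H' False univ 0 (by simp)]
  have h1 : (univ : Finset (Fin a ⊕ Fin b)).toLeft = univ := by ext; simp
  have h2 : (univ : Finset (Fin a ⊕ Fin b)).toRight = univ := by ext; simp
  rw [h1, h2, hm', card_univ, Fintype.card_fin]
  have := choose_two_double a
  omega

theorem exJ (a b m : ℕ) (hm : m ≤ 2) (hb : m ≤ b.choose 2) :
    Ex (a + b) (a.choose 2 + a * b + m) := by
  have htop : ds (⊤ : SimpleGraph (Fin b)) univ = 2 * b.choose 2 := by
    have h1 := ds_compl (⊤ : SimpleGraph (Fin b)) univ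
    have h2 : ds (⊤ : SimpleGraph (Fin b))ᶜ univ = 0 := by
      unfold ds
      simp
    rw [h2, zero_add, card_univ, Fintype.card_fin] at h1
    rw [h1, choose_two_double]
  obtain ⟨H', hle, hm'⟩ := exists_sub _ _ m htop hb
  refine ⟨Fin a ⊕ Fin b, inferInstance, ug (Fin a) H' True, by simp, ?_,
    NB_J H' (by omega)⟩
  rw [ds_ug H' True univ 1 (by simp)]
  have h1 : (univ : Finset (Fin a ⊕ Fin b)).toLeft = univ := by ext; simp
  have h2 : (univ : Finset (Fin a ⊕ Fin b)).toRight = univ := by ext; simp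
  rw [h1, h2, hm', card_univ, card_univ, Fintype.card_fin, Fintype.card_fin]
  have := choose_two_double a
  rw [one_mul]
  generalize a * b = ab at *
  omega

end Q117.NE
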